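import Pool.Agent.Q91.PT.Stm

/-!
Project PT (helper91), job CHP: characteristic function and residue classes.
-/

set_option autoImplicit false

namespace Pool.Agent.Q121.PT.CHP

open Finset Pool.Agent.H976R2 Pool.Agent.H976R2.Lip Pool.Agent.H739K Pool.Agent.H924P
open Pool.Agent.Q91.PT
open scoped Classical

theorem cos_bd (t : ℝ) (ht : |t| ≤ Real.pi) :
    |Real.cos (t / 2)| ≤ Real.exp (-(t ^ 2 / (2 * Real.pi ^ 2))) := by
  have h2 : |t / 2| ≤ Real.pi := by
    rw [abs_div, abs_two]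
    linarith [Real.pi_pos]
  have h1 := Real.cos_le_one_sub_mul_cos_sq h2
  have h3 : 0 ≤ Real.cos (t / 2) := by
    apply Real.cos_nonneg_of_neg_pi_div_two_le_of_le
    · linarith [(abs_le.1 ht).1]
    · linarith [(abs_le.1 ht).2]
  rw [abs_of_nonneg h3]
  have h4 : 1 - 2 / Real.pi ^ 2 * (t / 2) ^ 2 = -(t ^ 2 / (2 * Real.pi ^ 2)) + 1 := by
    field_simp
    ring
  rw [h4] at h1
  exact h1.trans (Real.add_one_le_exp _)

theorem root_sum (q : ℕ) (hq : 1 ≤ q) (m : ℤ) :
    ∑ l ∈ range q, Complex.exp (Complex.I * (2 * Real.pi * l / q : ℝ) * m) =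
      if (q : ℤ) ∣ m then (q : ℂ) else 0 := by
  have hq0 : (q : ℂ) ≠ 0 := by
    have : q ≠ 0 := by omega
    exact_mod_cast this
  set z : ℂ := Complex.exp (2 * Real.pi * Complex.I * (m / q)) with hz
  have h1 : ∀ l : ℕ, Complex.exp (Complex.I * (2 * Real.pi * l / q : ℝ) * m) = z ^ l := by
    intro l
    rw [hz, ← Complex.exp_nat_mul]
    congr 1
    push_cast
    ring
  have hzq : z ^ q = 1 := by
    rw [hz, ← Complex.exp_nat_mul, Complex.exp_eq_one_iff]
    refine ⟨m, ?_⟩
    field_simp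
  rw [Finset.sum_congr rfl (fun l _ => h1 l)]
  by_cases hd : (q : ℤ) ∣ m
  · rw [if_pos hd]
    obtain ⟨k, hk⟩ := hd
    have hz1 : z = 1 := by
      rw [hz, Complex.exp_eq_one_iff]
      refine ⟨k, ?_⟩
      rw [hk]
      push_cast
      field_simp
    rw [hz1]
    simp
  · rw [if_neg hd]
    have hz1 : z ≠ 1 := by
      intro h
      apply hd
      rw [hz, Complex.exp_eq_one_iff] at h
      obtain ⟨k, hk⟩ := h
      refine ⟨k, ?_⟩
      have h2 : (2 * Real.pi * Complex.I : ℂ) ≠ 0 := Complex.two_pi_I_ne_zero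
      have h3 : ((m : ℂ) / q) = k := by
        apply mul_left_cancel₀ h2
        rw [hk]
        ring
      rw [div_eq_iff hq0] at h3
      have h4 : (m : ℂ) = ((q : ℤ) * k : ℤ) := by
        push_cast
        rw [h3]
        ring
      exact_mod_cast h4
    rw [geom_sum_eq hz1, hzq]
    simp

/-- the shifted frequency -/
theorem shift (q l : ℕ) (hl0 : 1 ≤ l) (hl : l < q) : ∃ t : ℝ, |t| ≤ Real.pi ∧
    2 * Real.pi / q ≤ |t| ∧ ∀ m : ℤ, Complex.exp (Complex.I * (2 * Real.pi * l / q : ℝ) * m) =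
      Complex.exp (Complex.I * t * m) := by
  have hq0 : (0 : ℝ) < q := by
    have : 0 < q := by omega
    exact_mod_cast this
  have hpi := Real.pi_pos
  by_cases h : 2 * l ≤ q
  · refine ⟨2 * Real.pi * l / q, ?_, ?_, fun m => rfl⟩
    · rw [abs_of_nonneg (by positivity), div_le_iff₀ hq0]
      have : (2 * l : ℝ) ≤ q := by exact_mod_cast h
      nlinarith
    · rw [abs_of_nonneg (by positivity)]
      apply div_le_div_of_nonneg_right _ hq0.le
      have : (1 : ℝ) ≤ l := by exact_mod_cast hl0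
      nlinarith
  · have h' : q ≤ 2 * l := by omega
    have hneg : 2 * Real.pi * ((l : ℝ) - q) / q ≤ 0 := by
      apply div_nonpos_of_nonpos_of_nonneg _ hq0.le
      have : (l : ℝ) ≤ q := by exact_mod_cast hl.le
      nlinarith
    refine ⟨2 * Real.pi * ((l : ℝ) - q) / q, ?_, ?_, ?_⟩
    · rw [abs_of_nonpos hneg, ← neg_div, div_le_iff₀ hq0]
      have : (q : ℝ) ≤ 2 * l := by exact_mod_cast h'
      nlinarith
    · rw [abs_of_nonpos hneg, ← neg_div]
      apply div_le_div_of_nonneg_right _ hq0.le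
      have : (l : ℝ) + 1 ≤ q := by exact_mod_cast hl
      nlinarith
    · intro m
      have hq1 : (q : ℂ) ≠ 0 := by exact_mod_cast hq0.ne'
      have h2 : Complex.I * (2 * Real.pi * l / q : ℝ) * m =
          Complex.I * (2 * Real.pi * ((l : ℝ) - q) / q : ℝ) * m + m * (2 * Real.pi * Complex.I) := by
        push_cast
        field_simp
        ring
      rw [h2, Complex.exp_add, Complex.exp_int_mul_two_pi_mul_I, mul_one]

theorem t (hC : S_chr) (hF : S_flp) (hW : S_few) : S_chp := by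
  obtain ⟨ε, δ0, C, hε, hδ0, hC0, hfew⟩ := hW
  have hpi := Real.pi_pos
  set δ : ℝ := min (ε / (2 * Real.pi ^ 2)) (δ0 / Real.pi ^ 2) with hδ
  have hδp : 0 < δ := lt_min (by positivity) (by positivity)
  have part1 : ∀ n : ℕ, 3 ≤ n → n % 2 = 1 → ∀ B : Set (ℕ × ℕ), ∀ t : ℝ, |t| ≤ Real.pi →
      ‖∑ w ∈ (KP n).filter (fun w => dims w ∈ B), Complex.exp (Complex.I * t * (ar w : ℤ))‖ ≤
        (1 + C) * Real.exp (-δ * n * t ^ 2) * (KP n).card := by
    intro n hn hodd B t ht
    obtain ⟨hM, hrest⟩ := hfew n hn hodd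
    obtain ⟨hfl, hle⟩ := hF n B (ε * n) hn
    have hch := hC _ _ _ _ _ _ hfl t
    have hn0 : (0 : ℝ) ≤ n := Nat.cast_nonneg n
    have hM0 : (0 : ℝ) ≤ ((KP n).card : ℝ) := Nat.cast_nonneg _
    -- the sum over XB
    have h1 : ∑ x ∈ XB n B (ε * n), |Real.cos (t / 2)| ^ (Fl x).card ≤
        Real.exp (-δ * n * t ^ 2) * (KP n).card := by
      have h2 : ∀ x ∈ XB n B (ε * n), |Real.cos (t / 2)| ^ (Fl x).card ≤
          Real.exp (-δ * n * t ^ 2) := by
        intro x hx
        have hk : ε * n ≤ ((Fl x).card : ℝ) := (Finset.mem_filter.1 hx).2.2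
        calc |Real.cos (t / 2)| ^ (Fl x).card
            ≤ (Real.exp (-(t ^ 2 / (2 * Real.pi ^ 2)))) ^ (Fl x).card :=
              pow_le_pow_left₀ (abs_nonneg _) (cos_bd t ht) _
          _ = Real.exp ((Fl x).card * (-(t ^ 2 / (2 * Real.pi ^ 2)))) := by
              rw [← Real.exp_nat_mul]
          _ ≤ Real.exp (-δ * n * t ^ 2) := by
              apply Real.exp_le_exp.2
              have h3 : δ ≤ ε / (2 * Real.pi ^ 2) := min_le_left _ _
              have h4 : 0 ≤ t ^ 2 / (2 * Real.pi ^ 2) := by positivity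
              have h5 : ε * n * (t ^ 2 / (2 * Real.pi ^ 2)) ≤
                  (Fl x).card * (t ^ 2 / (2 * Real.pi ^ 2)) := mul_le_mul_of_nonneg_right hk h4
              have h6 : δ * (n * t ^ 2) ≤ ε / (2 * Real.pi ^ 2) * (n * t ^ 2) :=
                mul_le_mul_of_nonneg_right h3 (by positivity)
              have h7 : ε / (2 * Real.pi ^ 2) * (n * t ^ 2) = ε * n * (t ^ 2 / (2 * Real.pi ^ 2)) := by
                ring
              nlinarith
      calc ∑ x ∈ XB n B (ε * n), |Real.cos (t / 2)| ^ (Fl x).card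
          ≤ ∑ _x ∈ XB n B (ε * n), Real.exp (-δ * n * t ^ 2) := Finset.sum_le_sum h2
        _ = (XB n B (ε * n)).card * Real.exp (-δ * n * t ^ 2) := by
            rw [Finset.sum_const, nsmul_eq_mul]
        _ ≤ (KP n).card * Real.exp (-δ * n * t ^ 2) := by
            apply mul_le_mul_of_nonneg_right _ (Real.exp_pos _).le
            exact_mod_cast Finset.card_le_card (Finset.filter_subset _ _)
        _ = _ := mul_comm _ _
    -- the rest
    have h8 : (KP n).filter (fun w => dims w ∈ B) = XB n B (ε * n) ∪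
        ((KP n).filter (fun w => dims w ∈ B ∧ ¬ (ε * n ≤ ((Fl w).card : ℝ)))) := by
      ext w
      simp only [XB, Finset.mem_union, Finset.mem_filter]
      tauto
    have h9 : Disjoint (XB n B (ε * n))
        ((KP n).filter (fun w => dims w ∈ B ∧ ¬ (ε * n ≤ ((Fl w).card : ℝ)))) := by
      rw [Finset.disjoint_left]
      intro w h1 h2
      exact (Finset.mem_filter.1 h2).2.2 (Finset.mem_filter.1 h1).2.2
    have h10 : ‖∑ w ∈ (KP n).filter (fun w => dims w ∈ B ∧ ¬ (ε * n ≤ ((Fl w).card : ℝ))),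
        Complex.exp (Complex.I * t * (ar w : ℤ))‖ ≤ C * Real.exp (-δ * n * t ^ 2) * (KP n).card := by
      refine (norm_sum_le _ _).trans ?_
      have h11 : ∀ w ∈ (KP n).filter (fun w => dims w ∈ B ∧ ¬ (ε * n ≤ ((Fl w).card : ℝ))),
          ‖Complex.exp (Complex.I * t * (ar w : ℤ))‖ ≤ 1 := by
        intro w _
        have h12 : Complex.I * t * ((ar w : ℤ) : ℂ) = ((t * ar w : ℝ) : ℂ) * Complex.I := by
          push_cast
          ring
        rw [h12, Complex.norm_exp_ofReal_mul_I]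
      refine (Finset.sum_le_sum h11).trans ?_
      rw [Finset.sum_const, nsmul_eq_mul, mul_one]
      have h13 : (((KP n).filter (fun w => dims w ∈ B ∧ ¬ (ε * n ≤ ((Fl w).card : ℝ)))).card : ℝ) ≤
          (((KP n).filter (fun w => ((Fl w).card : ℝ) < ε * n)).card : ℝ) := by
        have := Finset.card_le_card (s := (KP n).filter (fun w => dims w ∈ B ∧
          ¬ (ε * n ≤ ((Fl w).card : ℝ)))) (t := (KP n).filter (fun w => ((Fl w).card : ℝ) < ε * n))
          (by
            intro w hw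
            rw [Finset.mem_filter] at hw ⊢
            exact ⟨hw.1, not_le.1 hw.2.2⟩)
        exact_mod_cast this
      refine h13.trans (hrest.trans ?_)
      apply mul_le_mul_of_nonneg_right _ hM0
      apply mul_le_mul_of_nonneg_left _ hC0.le
      apply Real.exp_le_exp.2
      have h14 : δ ≤ δ0 / Real.pi ^ 2 := min_le_right _ _
      have h15 : t ^ 2 ≤ Real.pi ^ 2 := by
        rw [← sq_abs]
        exact pow_le_pow_left₀ (abs_nonneg t) ht 2
      have h16 : δ * t ^ 2 ≤ δ0 := by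
        calc δ * t ^ 2 ≤ δ0 / Real.pi ^ 2 * Real.pi ^ 2 :=
              mul_le_mul h14 h15 (sq_nonneg _) (by positivity)
          _ = δ0 := by field_simp
      nlinarith
    rw [h8, Finset.sum_union h9]
    refine (norm_add_le _ _).trans ?_
    have h17 := hch.trans h1
    have h18 : (1 + C) * Real.exp (-δ * n * t ^ 2) * (KP n).card =
        Real.exp (-δ * n * t ^ 2) * (KP n).card + C * Real.exp (-δ * n * t ^ 2) * (KP n).card := by
      ring
    rw [h18]
    exact add_le_add h17 h10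
  refine ⟨1 + C, δ, by positivity, hδp, ?_⟩
  intro n hn hodd B
  refine ⟨part1 n hn hodd B, ?_⟩
  intro q c hq
  have hq0 : (0 : ℝ) < q := by exact_mod_cast hq
  have hqc : (q : ℂ) ≠ 0 := by exact_mod_cast hq0.ne'
  set Y := (KP n).filter (fun w => dims w ∈ B) with hY
  have e1 : ((((KP n).filter (fun w => dims w ∈ B ∧ (q : ℤ) ∣ (ar w : ℤ) - c)).card : ℝ) : ℂ) =
      (1 / q) * ∑ l ∈ range q, ∑ w ∈ Y,
        Complex.exp (Complex.I * (2 * Real.pi * l / q : ℝ) * ((ar w : ℤ) - c : ℤ)) := by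
    rw [Finset.sum_comm, Finset.sum_congr rfl (fun w _ => root_sum q hq _), ← Finset.sum_filter,
      Finset.sum_const, nsmul_eq_mul]
    rw [hY, Finset.filter_filter]
    push_cast
    field_simp
  have e2 : ∑ l ∈ range q, ∑ w ∈ Y,
        Complex.exp (Complex.I * (2 * Real.pi * l / q : ℝ) * ((ar w : ℤ) - c : ℤ)) =
      (Y.card : ℂ) + ∑ l ∈ (range q).erase 0, ∑ w ∈ Y,
        Complex.exp (Complex.I * (2 * Real.pi * l / q : ℝ) * ((ar w : ℤ) - c : ℤ)) := by
    rw [← Finset.add_sum_erase (range q) _ (Finset.mem_range.2 hq)]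
    congr 1
    simp
  have e3 : ∀ l ∈ (range q).erase 0, ‖∑ w ∈ Y,
        Complex.exp (Complex.I * (2 * Real.pi * l / q : ℝ) * ((ar w : ℤ) - c : ℤ))‖ ≤
      (1 + C) * Real.exp (-δ * n / q ^ 2) * (KP n).card := by
    intro l hl
    rw [Finset.mem_erase, Finset.mem_range] at hl
    obtain ⟨s, hs1, hs2, hs3⟩ := shift q l (Nat.one_le_iff_ne_zero.2 hl.1) hl.2
    have h1 : ∑ w ∈ Y, Complex.exp (Complex.I * (2 * Real.pi * l / q : ℝ) * ((ar w : ℤ) - c : ℤ)) =
        Complex.exp (-(Complex.I * s * c)) * ∑ w ∈ Y, Complex.exp (Complex.I * s * (ar w : ℤ)) := by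
      rw [Finset.mul_sum]
      refine Finset.sum_congr rfl (fun w _ => ?_)
      rw [hs3, ← Complex.exp_add]
      congr 1
      push_cast
      ring
    have h2 : ‖Complex.exp (-(Complex.I * s * c))‖ = 1 := by
      have : -(Complex.I * s * c) = ((-(s * c) : ℝ) : ℂ) * Complex.I := by
        push_cast
        ring
      rw [this, Complex.norm_exp_ofReal_mul_I]
    rw [h1, norm_mul, h2, one_mul]
    refine (part1 n hn hodd B s hs1).trans ?_
    apply mul_le_mul_of_nonneg_right _ (Nat.cast_nonneg _)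
    apply mul_le_mul_of_nonneg_left _ (by positivity)
    apply Real.exp_le_exp.2
    have h3 : (2 * Real.pi / q) ^ 2 ≤ s ^ 2 := by
      rw [← sq_abs s]
      exact pow_le_pow_left₀ (by positivity) hs2 2
    have h4 : 1 / (q : ℝ) ^ 2 ≤ (2 * Real.pi / q) ^ 2 := by
      rw [div_pow]
      apply div_le_div_of_nonneg_right _ (by positivity)
      nlinarith [Real.pi_gt_three]
    have h5 : 1 / (q : ℝ) ^ 2 ≤ s ^ 2 := h4.trans h3
    have hn0 : (0 : ℝ) ≤ n := Nat.cast_nonneg n
    have h6 : δ * n * (1 / (q : ℝ) ^ 2) ≤ δ * n * s ^ 2 :=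
      mul_le_mul_of_nonneg_left h5 (by positivity)
    have h7 : -δ * n / (q : ℝ) ^ 2 = -(δ * n * (1 / (q : ℝ) ^ 2)) := by ring
    rw [h7]
    linarith
  have e4 : (((((KP n).filter (fun w => dims w ∈ B ∧ (q : ℤ) ∣ (ar w : ℤ) - c)).card : ℝ) -
      (Y.card : ℝ) / q : ℝ) : ℂ) = (1 / q) * ∑ l ∈ (range q).erase 0, ∑ w ∈ Y,
        Complex.exp (Complex.I * (2 * Real.pi * l / q : ℝ) * ((ar w : ℤ) - c : ℤ)) := by
    rw [Complex.ofReal_sub, e1, e2]
    push_cast
    ring
  have e5 : |(((KP n).filter (fun w => dims w ∈ B ∧ (q : ℤ) ∣ (ar w : ℤ) - c)).card : ℝ) -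
      (Y.card : ℝ) / q| = ‖(1 / (q : ℂ)) * ∑ l ∈ (range q).erase 0, ∑ w ∈ Y,
        Complex.exp (Complex.I * (2 * Real.pi * l / q : ℝ) * ((ar w : ℤ) - c : ℤ))‖ := by
    rw [← e4, Complex.norm_real, Real.norm_eq_abs]
  rw [e5, norm_mul]
  have e6 : ‖(1 / (q : ℂ))‖ = 1 / q := by
    rw [norm_div, norm_one, Complex.norm_natCast]
  rw [e6]
  have e7 : ‖∑ l ∈ (range q).erase 0, ∑ w ∈ Y,
        Complex.exp (Complex.I * (2 * Real.pi * l / q : ℝ) * ((ar w : ℤ) - c : ℤ))‖ ≤
      q * ((1 + C) * Real.exp (-δ * n / q ^ 2) * (KP n).card) := by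
    refine (norm_sum_le _ _).trans ((Finset.sum_le_sum e3).trans ?_)
    rw [Finset.sum_const, nsmul_eq_mul]
    apply mul_le_mul_of_nonneg_right _ (by positivity)
    have : ((range q).erase 0).card ≤ q := by
      calc ((range q).erase 0).card ≤ (range q).card := Finset.card_le_card (Finset.erase_subset _ _)
        _ = q := Finset.card_range q
    exact_mod_cast this
  calc 1 / (q : ℝ) * ‖∑ l ∈ (range q).erase 0, ∑ w ∈ Y,
        Complex.exp (Complex.I * (2 * Real.pi * l / q : ℝ) * ((ar w : ℤ) - c : ℤ))‖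
      ≤ 1 / (q : ℝ) * (q * ((1 + C) * Real.exp (-δ * n / q ^ 2) * (KP n).card)) :=
        mul_le_mul_of_nonneg_left e7 (by positivity)
    _ = (1 + C) * Real.exp (-δ * n / q ^ 2) * (KP n).card := by
        field_simp

end Pool.Agent.Q121.PT.CHP
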