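import Pool.Agent.Q91.PT.Stm
import Pool.Agent.H739K.CONV

/-!
Project PT (helper91), job MEA: the area is rarely small.
-/

set_option autoImplicit false

namespace Pool.Agent.Q121.PT.MEA

open Finset Pool.Agent.H976R2 Pool.Agent.H976R2.Lip Pool.Agent.H739K Pool.Agent.H924P
open Pool.Agent.Q91.PT
open scoped Classical

/-- the number of enclosed flippable cells -/
noncomputable abbrev DD (w : List Dir) : ℕ := Dn Fl (fun w k => ins' w (cl w k)) w

theorem mem_XB {n : ℕ} {B : Set (ℕ × ℕ)} {κ : ℝ} {w : List Dir} :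
    w ∈ XB n B κ ↔ w ∈ KP n ∧ dims w ∈ B ∧ κ ≤ ((Fl w).card : ℝ) := by
  unfold XB
  rw [Finset.mem_filter]

theorem XB_zero (n : ℕ) : XB n Set.univ 0 = KP n := by
  ext w
  simp [XB]

/-- a flip of an enclosed cell lowers the number of enclosed flippable cells by one -/
theorem dn_flip {α : Type} {X : Finset α} {F : α → Finset ℕ} {g : α → ℕ → α} {b : α → ℕ → Prop}
    {A : α → ℤ} (h : Flips X F g b A) {x : α} (hx : x ∈ X) {k : ℕ} (hk : k ∈ F x) (hb : b x k) :
    Dn F b (g x k) + 1 = Dn F b x := by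
  obtain ⟨_, h2, _, h4, h5, _⟩ := h x hx k hk
  unfold Dn
  rw [h2]
  have h6 : (F x).filter (fun j => b (g x k) j) = ((F x).filter (fun j => b x j)).erase k := by
    ext j
    rw [Finset.mem_filter, Finset.mem_erase, Finset.mem_filter]
    constructor
    · rintro ⟨h7, h8⟩
      have hjk : j ≠ k := by
        rintro rfl
        exact (h5.1 h8) hb
      exact ⟨hjk, h7, (h4 j h7 hjk).1 h8⟩
    · rintro ⟨h7, h8, h9⟩
      exact ⟨h8, (h4 j h8 h7).2 h9⟩
  rw [h6]
  exact Finset.card_erase_add_one (Finset.mem_filter.2 ⟨hk, hb⟩)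

theorem low (hL : S_low) (n : ℕ) (hn : 3 ≤ n) (hodd : n % 2 = 1) (w : List Dir) (hw : w ∈ KP n) :
    n ≤ 2 * ar w + 1 := by
  obtain ⟨N, hN⟩ : ∃ N, n = 2 * N - 1 ∧ 2 ≤ N := ⟨(n + 1) / 2, by omega, by omega⟩
  obtain ⟨rfl, hN2⟩ := hN
  have h1 := (CONV_proof N hN2).2.2 w hw
  have h2 := hL (2 * N) (lp (2 * N) w) (by omega) h1
  have hlen : w.length + 1 = 2 * N := by
    have h3 := (mem_SW.1 (Finset.mem_filter.1 hw).1).1
    omega
  have h3 : ar w = area (2 * N) (lp (2 * N) w) := by
    unfold ar
    rw [hlen]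
  rw [h3]
  omega

theorem low2 (hL : S_low) (hF : S_flp) (n : ℕ) (hn : 3 ≤ n) (hodd : n % 2 = 1) : ∀ (d : ℕ)
    (w : List Dir), w ∈ KP n → DD w = d → n + 2 * d ≤ 2 * ar w + 1 := by
  have hfl := (hF n Set.univ 0 hn).1
  rw [XB_zero] at hfl
  intro d
  induction d with
  | zero =>
    intro w hw _
    have := low hL n hn hodd w hw
    omega
  | succ d ih =>
    intro w hw hd
    have hpos : 0 < ((Fl w).filter (fun k => ins' w (cl w k))).card := by
      have : ((Fl w).filter (fun k => ins' w (cl w k))).card = d + 1 := hd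
      omega
    obtain ⟨k, hk⟩ := Finset.card_pos.1 hpos
    rw [Finset.mem_filter] at hk
    have h1 := dn_flip hfl hw hk.1 hk.2
    obtain ⟨h2, _, _, _, _, h6⟩ := hfl w hw k hk.1
    rw [if_pos hk.2] at h6
    have h3 : DD (sw w k) = d := by
      have h7 : Dn Fl (fun w k => ins' w (cl w k)) (sw w k) + 1 = d + 1 := h1.trans hd
      exact Nat.succ_injective h7
    have h4 := ih (sw w k) h2 h3
    have h5 : ((ar (sw w k) : ℕ) : ℤ) = ar w + (-1) := h6
    omega

theorem t (hL : S_low) (hF : S_flp) (hW : S_few) (hG : S_mgf) : S_mea := by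
  obtain ⟨ε, δ0, C, hε, hδ0, hC0, hfew⟩ := hW
  set δ : ℝ := min (min (ε / 8) (ε ^ 2 / 8)) δ0 with hδ
  have hδp : 0 < δ := lt_min (lt_min (by positivity) (by positivity)) hδ0
  have hδ1 : δ ≤ ε / 8 := (min_le_left _ _).trans (min_le_left _ _)
  have hδ2 : δ ≤ ε ^ 2 / 8 := (min_le_left _ _).trans (min_le_right _ _)
  have hδ3 : δ ≤ δ0 := min_le_right _ _
  obtain ⟨n0, hn0⟩ := exists_nat_ge (8 / ε)
  set C1 : ℝ := (1 + C) + Real.exp (δ * n0) + C * ε / (4 * δ0) with hC1
  have hC1p : 0 < C1 := by positivity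
  refine ⟨δ, C1, hδp, hC1p, ?_⟩
  intro n hn hodd
  obtain ⟨hM, hrest⟩ := hfew n hn hodd
  obtain ⟨hfl, hle⟩ := hF n Set.univ (ε * n) hn
  have hnR : (0 : ℝ) < n := by
    have : 0 < n := by omega
    exact_mod_cast this
  set M : ℝ := ((KP n).card : ℝ) with hMd
  have hMp : 0 < M := by
    rw [hMd]
    exact_mod_cast hM
  set X := XB n Set.univ (ε * n) with hX
  have hXK : X ⊆ KP n := fun w hw => (mem_XB.1 hw).1
  have hXM : ((X.card : ℕ) : ℝ) ≤ M := by
    rw [hMd]
    exact_mod_cast Finset.card_le_card hXK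
  have hmem : ∀ w ∈ X, ε * n ≤ ((Fl w).card : ℝ) := fun w hw => (mem_XB.1 hw).2.2
  obtain ⟨hg1, hg2⟩ := hG _ X Fl sw (fun w k => ins' w (cl w k)) (fun w => (ar w : ℤ)) hfl
  constructor
  · rcases lt_or_ge n n0 with hsm | hlg
    · -- small n
      have h1 : (((KP n).filter (fun w => (ar w : ℝ) ≤ (1 + δ) * ((n + 1) / 2))).card : ℝ) ≤ M := by
        rw [hMd]
        exact_mod_cast Finset.card_le_card (Finset.filter_subset _ _)
      refine h1.trans ?_
      have h2 : 1 ≤ C1 * Real.exp (-δ * n) := by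
        have h3 : Real.exp (δ * n) ≤ Real.exp (δ * n0) := by
          apply Real.exp_le_exp.2
          have : (n : ℝ) ≤ n0 := by exact_mod_cast hsm.le
          nlinarith
        have h4 : Real.exp (δ * n) * Real.exp (-δ * n) = 1 := by
          rw [← Real.exp_add]
          have : δ * n + -δ * n = 0 := by ring
          rw [this, Real.exp_zero]
        have h5 : Real.exp (δ * n) ≤ C1 := by
          rw [hC1]
          have : 0 ≤ C * ε / (4 * δ0) := by positivity
          linarith
        calc 1 = Real.exp (δ * n) * Real.exp (-δ * n) := h4.symm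
          _ ≤ C1 * Real.exp (-δ * n) := mul_le_mul_of_nonneg_right h5 (Real.exp_pos _).le
      nlinarith
    · -- large n
      have hnn : 8 ≤ ε * n := by
        have h1 : 8 / ε ≤ n := hn0.trans (by exact_mod_cast hlg)
        rw [div_le_iff₀ hε] at h1
        linarith
      have hsub : (KP n).filter (fun w => (ar w : ℝ) ≤ (1 + δ) * ((n + 1) / 2)) ⊆
          X.filter (fun w => (DD w : ℝ) ≤ ((Fl w).card : ℝ) / 4) ∪
            (KP n).filter (fun w => ((Fl w).card : ℝ) < ε * n) := by
        intro w hw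
        rw [Finset.mem_filter] at hw
        rw [Finset.mem_union, Finset.mem_filter, Finset.mem_filter]
        rcases lt_or_ge ((Fl w).card : ℝ) (ε * n) with h | h
        · right
          exact ⟨hw.1, h⟩
        · left
          refine ⟨mem_XB.2 ⟨hw.1, Set.mem_univ _, h⟩, ?_⟩
          by_contra hcon
          push Not at hcon
          have h1 := low2 hL hF n hn hodd (DD w) w hw.1 rfl
          have h2 : (n : ℝ) + 2 * DD w ≤ 2 * ar w + 1 := by exact_mod_cast h1
          have h3 := hw.2
          have h4 : δ * (n + 1) ≤ ε / 8 * (2 * n) := by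
            have h1n : (1 : ℝ) ≤ n := by
              have : 1 ≤ n := by omega
              exact_mod_cast this
            exact mul_le_mul hδ1 (by linarith) (by positivity) (by positivity)
          nlinarith
      have h1 := (Finset.card_le_card hsub).trans (Finset.card_union_le _ _)
      have h2 : (((KP n).filter (fun w => (ar w : ℝ) ≤ (1 + δ) * ((n + 1) / 2))).card : ℝ) ≤
          ((X.filter (fun w => (DD w : ℝ) ≤ ((Fl w).card : ℝ) / 4)).card : ℝ) +
            (((KP n).filter (fun w => ((Fl w).card : ℝ) < ε * n)).card : ℝ) := by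
        exact_mod_cast h1
      -- Chernoff
      have h3 := hg1 n (ε / 2) hle
      have h4 : ((X.filter (fun w => (DD w : ℝ) ≤ ((Fl w).card : ℝ) / 4)).card : ℝ) *
          Real.exp (ε ^ 2 / 4 * n) ≤ X.card * Real.exp ((ε / 2) ^ 2 * n / 2) := by
        refine le_trans ?_ h3
        rw [← nsmul_eq_mul, ← Finset.sum_const]
        refine le_trans (Finset.sum_le_sum (g := fun x => Real.exp (ε / 2 * ((Fl x).card -
          2 * Dn Fl (fun w k => ins' w (cl w k)) x))) ?_) ?_
        · intro w hw
          rw [Finset.mem_filter] at hw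
          apply Real.exp_le_exp.2
          have h5 := hmem w hw.1
          have h6 : (DD w : ℝ) ≤ ((Fl w).card : ℝ) / 4 := hw.2
          have h7 : ε / 2 * (ε * n / 2) ≤ ε / 2 * (((Fl w).card : ℝ) - 2 * DD w) :=
            mul_le_mul_of_nonneg_left (by linarith) (by positivity)
          calc ε ^ 2 / 4 * n = ε / 2 * (ε * n / 2) := by ring
            _ ≤ _ := h7
        · apply Finset.sum_le_sum_of_subset_of_nonneg (Finset.filter_subset _ _)
          intro w _ _
          exact (Real.exp_pos _).le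
      have h5 : ((X.filter (fun w => (DD w : ℝ) ≤ ((Fl w).card : ℝ) / 4)).card : ℝ) ≤
          Real.exp (-δ * n) * M := by
        have e1 : Real.exp ((ε / 2) ^ 2 * n / 2) = Real.exp (-(ε ^ 2 / 8) * n) *
            Real.exp (ε ^ 2 / 4 * n) := by
          rw [← Real.exp_add]
          congr 1
          ring
        rw [e1] at h4
        have e2 : ((X.filter (fun w => (DD w : ℝ) ≤ ((Fl w).card : ℝ) / 4)).card : ℝ) ≤
            X.card * Real.exp (-(ε ^ 2 / 8) * n) := by
          have h6 := Real.exp_pos (ε ^ 2 / 4 * n)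
          rw [← mul_assoc] at h4
          exact le_of_mul_le_mul_right h4 h6
        refine e2.trans ?_
        have e3 : Real.exp (-(ε ^ 2 / 8) * n) ≤ Real.exp (-δ * n) := by
          apply Real.exp_le_exp.2
          nlinarith
        calc (X.card : ℝ) * Real.exp (-(ε ^ 2 / 8) * n) ≤ M * Real.exp (-δ * n) :=
              mul_le_mul hXM e3 (Real.exp_pos _).le hMp.le
          _ = _ := mul_comm _ _
      have h6 : (((KP n).filter (fun w => ((Fl w).card : ℝ) < ε * n)).card : ℝ) ≤
          C * Real.exp (-δ * n) * M := by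
        refine hrest.trans ?_
        apply mul_le_mul_of_nonneg_right _ hMp.le
        apply mul_le_mul_of_nonneg_left _ hC0.le
        apply Real.exp_le_exp.2
        nlinarith
      have h7 : (1 + C) * Real.exp (-δ * n) * M ≤ C1 * Real.exp (-δ * n) * M := by
        apply mul_le_mul_of_nonneg_right _ hMp.le
        apply mul_le_mul_of_nonneg_right _ (Real.exp_pos _).le
        rw [hC1]
        have a1 : 0 < Real.exp (δ * n0) := Real.exp_pos _
        have a2 : 0 ≤ C * ε / (4 * δ0) := by positivity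
        linarith
      refine le_trans ?_ h7
      have h8 : (1 + C) * Real.exp (-δ * n) * M = Real.exp (-δ * n) * M +
          C * Real.exp (-δ * n) * M := by ring
      rw [h8]
      linarith
  · intro y
    have h1 := hg2 y
    have h2 : ∑ x ∈ X, (((ar x : ℤ) : ℝ) - y) ^ 2 ≤ ∑ w ∈ KP n, ((ar w : ℝ) - y) ^ 2 := by
      have e1 : ∑ x ∈ X, (((ar x : ℤ) : ℝ) - y) ^ 2 = ∑ x ∈ X, ((ar x : ℝ) - y) ^ 2 := by
        refine Finset.sum_congr rfl (fun x _ => ?_)
        push_cast
        rfl
      rw [e1]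
      exact Finset.sum_le_sum_of_subset_of_nonneg hXK (fun _ _ _ => sq_nonneg _)
    refine le_trans ?_ (h1.trans h2)
    have h3 : (X.card : ℝ) * (ε * n / 4) ≤ ∑ x ∈ X, ((Fl x).card : ℝ) / 4 := by
      rw [← nsmul_eq_mul, ← Finset.sum_const]
      apply Finset.sum_le_sum
      intro w hw
      have := hmem w hw
      linarith
    refine le_trans ?_ h3
    have h4 : M ≤ X.card + C * Real.exp (-δ0 * n) * M := by
      have e1 : KP n ⊆ X ∪ (KP n).filter (fun w => ((Fl w).card : ℝ) < ε * n) := by
        intro w hw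
        rw [Finset.mem_union, Finset.mem_filter]
        rcases lt_or_ge ((Fl w).card : ℝ) (ε * n) with h | h
        · right
          exact ⟨hw, h⟩
        · left
          exact mem_XB.2 ⟨hw, Set.mem_univ _, h⟩
      have e2 := (Finset.card_le_card e1).trans (Finset.card_union_le _ _)
      have e3 : M ≤ X.card + (((KP n).filter (fun w => ((Fl w).card : ℝ) < ε * n)).card : ℝ) := by
        rw [hMd]
        exact_mod_cast e2
      linarith
    have h5 : Real.exp (-δ0 * n) * (δ0 * n) ≤ 1 := by
      have e1 : δ0 * n + 1 ≤ Real.exp (δ0 * n) := Real.add_one_le_exp _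
      have e2 : Real.exp (-δ0 * n) * Real.exp (δ0 * n) = 1 := by
        rw [← Real.exp_add]
        have : -δ0 * n + δ0 * n = 0 := by ring
        rw [this, Real.exp_zero]
      have e3 : Real.exp (-δ0 * n) * (δ0 * n) ≤ Real.exp (-δ0 * n) * Real.exp (δ0 * n) :=
        mul_le_mul_of_nonneg_left (by linarith) (Real.exp_pos _).le
      linarith
    have h6 : C * Real.exp (-δ0 * n) * M * (ε * n / 4) ≤ C * ε / (4 * δ0) * M := by
      have e1 : C * Real.exp (-δ0 * n) * M * (ε * n / 4) =
          C * ε / (4 * δ0) * M * (Real.exp (-δ0 * n) * (δ0 * n)) := by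
        field_simp
      rw [e1]
      have e2 : 0 ≤ C * ε / (4 * δ0) * M := by positivity
      calc C * ε / (4 * δ0) * M * (Real.exp (-δ0 * n) * (δ0 * n)) ≤ C * ε / (4 * δ0) * M * 1 :=
            mul_le_mul_of_nonneg_left h5 e2
        _ = _ := mul_one _
    have h7 : M * (ε * n / 4) ≤ X.card * (ε * n / 4) + C * Real.exp (-δ0 * n) * M * (ε * n / 4) := by
      have e1 : 0 ≤ ε * n / 4 := by positivity
      have e2 := mul_le_mul_of_nonneg_right h4 e1
      linarith
    have h8 : δ * n * M ≤ M * (ε * n / 4) := by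
      have e1 : δ ≤ ε / 4 := by linarith
      have e2 : δ * (n * M) ≤ ε / 4 * (n * M) := mul_le_mul_of_nonneg_right e1 (by positivity)
      linarith
    have h9 : C * ε / (4 * δ0) * M ≤ C1 * M := by
      apply mul_le_mul_of_nonneg_right _ hMp.le
      rw [hC1]
      have a1 : 0 < Real.exp (δ * n0) := Real.exp_pos _
      linarith
    linarith

end Pool.Agent.Q121.PT.MEA
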