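import Pool.Agent.Q91.PT.Stm

/-!
Project PT (helper91), job RAT: the ratio theorem.
-/

set_option autoImplicit false

namespace Pool.Agent.Q121.PT.RAT

open Finset Pool.Agent.H976R2 Pool.Agent.H976R2.Lip Pool.Agent.H739K Pool.Agent.H924P
open Pool.Agent.Q91.PT
open scoped Classical

theorem core {n M x y ε : ℝ} (hn : 0 < n) (hε : 0 < ε) (hx : 0 < x) (hxM : x ≤ M) (hy : 0 ≤ y)
    (hyM : y ≤ M)
    (h : |y - x| ≤ (x * √(2 * n * Real.log (2 * M / x)) +
      y * √(2 * n * Real.log (2 * M / y))) / (ε * n))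
    (hs : √(2 * n * Real.log (2 * M / x)) ≤ ε * n / 3) :
    |y - x| ≤ 3 * x * √(2 * n * (1 + Real.log (2 * M / x))) / (ε * n) := by
  have hM : 0 < M := hx.trans_le hxM
  set L := Real.log (2 * M / x) with hL
  have hL0 : 0 ≤ L := by
    apply Real.log_nonneg
    rw [le_div_iff₀ hx]
    linarith
  have hen : 0 < ε * n := by positivity
  refine h.trans ?_
  apply div_le_div_of_nonneg_right _ hen.le
  have h1 : √(2 * n * L) ≤ √(2 * n * (1 + L)) := Real.sqrt_le_sqrt (by nlinarith)
  have h0 : 0 ≤ √(2 * n * (1 + L)) := Real.sqrt_nonneg _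
  have h1x : x * √(2 * n * L) ≤ x * √(2 * n * (1 + L)) := mul_le_mul_of_nonneg_left h1 hx.le
  rcases le_or_gt y x with hyx | hyx
  · have h2 : y * √(2 * n * Real.log (2 * M / y)) ≤ x * √(2 * n * (1 + L)) := by
      rcases hy.eq_or_lt with hy0 | hy0
      · rw [← hy0, zero_mul]
        positivity
      · have e1 : y * √(2 * n * Real.log (2 * M / y)) = √(y ^ 2 * (2 * n * Real.log (2 * M / y))) := by
          rw [Real.sqrt_mul (sq_nonneg _), Real.sqrt_sq hy]
        have e2 : x * √(2 * n * (1 + L)) = √(x ^ 2 * (2 * n * (1 + L))) := by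
          rw [Real.sqrt_mul (sq_nonneg _), Real.sqrt_sq hx.le]
        rw [e1, e2]
        apply Real.sqrt_le_sqrt
        have e3 : Real.log (2 * M / y) = L + Real.log (x / y) := by
          rw [hL, ← Real.log_mul (by positivity) (by positivity)]
          congr 1
          field_simp
        have e4 : Real.log (x / y) ≤ x / y - 1 := Real.log_le_sub_one_of_pos (by positivity)
        have e5 : y ^ 2 * Real.log (x / y) ≤ x * y - y ^ 2 := by
          calc y ^ 2 * Real.log (x / y) ≤ y ^ 2 * (x / y - 1) :=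
                mul_le_mul_of_nonneg_left e4 (sq_nonneg _)
            _ = x * y - y ^ 2 := by field_simp
        have e6 : y ^ 2 * L ≤ x ^ 2 * L :=
          mul_le_mul_of_nonneg_right (pow_le_pow_left₀ hy hyx 2) hL0
        have e7 : x * y ≤ x ^ 2 := by nlinarith
        rw [e3]
        have e8 : y ^ 2 * (2 * n * (L + Real.log (x / y))) =
            2 * n * (y ^ 2 * L + y ^ 2 * Real.log (x / y)) := by ring
        have e9 : x ^ 2 * (2 * n * (1 + L)) = 2 * n * (x ^ 2 + x ^ 2 * L) := by ring
        rw [e8, e9]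
        apply mul_le_mul_of_nonneg_left _ (by positivity)
        nlinarith [sq_nonneg y]
    have h3 : 0 ≤ x * √(2 * n * (1 + L)) := by positivity
    nlinarith
  · have hy0 : 0 < y := hx.trans hyx
    have h2 : √(2 * n * Real.log (2 * M / y)) ≤ √(2 * n * L) := by
      apply Real.sqrt_le_sqrt
      apply mul_le_mul_of_nonneg_left _ (by positivity)
      apply Real.log_le_log (by positivity)
      apply div_le_div_of_nonneg_left (by positivity) hx hyx.le
    have h3 : y ≤ 2 * x := by
      have h4 : y - x ≤ |y - x| := le_abs_self _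
      have h5 : x * √(2 * n * L) + y * √(2 * n * Real.log (2 * M / y)) ≤
          (x + y) * (ε * n / 3) := by
        have a1 : x * √(2 * n * L) ≤ x * (ε * n / 3) := mul_le_mul_of_nonneg_left hs hx.le
        have a2 : y * √(2 * n * Real.log (2 * M / y)) ≤ y * (ε * n / 3) :=
          mul_le_mul_of_nonneg_left (h2.trans hs) hy
        linarith
      have h6 : (x * √(2 * n * L) + y * √(2 * n * Real.log (2 * M / y))) / (ε * n) ≤
          (x + y) / 3 := by
        rw [div_le_iff₀ hen]
        linarith
      have h7 : y - x ≤ (x + y) / 3 := h4.trans (h.trans h6)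
      linarith
    have h8 : y * √(2 * n * Real.log (2 * M / y)) ≤ 2 * x * √(2 * n * (1 + L)) :=
      mul_le_mul h3 (h2.trans h1) (Real.sqrt_nonneg _) (by positivity)
    linarith

theorem t (hR : S_rti) (hF : S_flp) (hW : S_few) : S_rat := by
  obtain ⟨ε, δ0, C, hε, hδ0, hC0, hfew⟩ := hW
  set δ : ℝ := min (ε ^ 2 / 36) (δ0 / 2) with hδ
  have hδp : 0 < δ := lt_min (by positivity) (by positivity)
  have hδ1 : δ ≤ ε ^ 2 / 36 := min_le_left _ _
  have hδ2 : δ ≤ δ0 / 2 := min_le_right _ _
  -- large n
  obtain ⟨n0, hn0⟩ : ∃ n0 : ℕ, ∀ n : ℕ, n0 ≤ n → C * Real.exp (-(δ0 / 2) * n) ≤ 1 / 2 ∧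
      Real.log 4 ≤ δ * n := by
    obtain ⟨n1, hn1⟩ := exists_nat_ge (4 * C / δ0)
    obtain ⟨n2, hn2⟩ := exists_nat_ge (Real.log 4 / δ)
    refine ⟨max (max n1 n2) 1, ?_⟩
    intro n hn
    have h1 : (n1 : ℝ) ≤ n := by
      exact_mod_cast ((le_max_left _ _).trans (le_max_left _ _)).trans hn
    have h2 : (n2 : ℝ) ≤ n := by
      exact_mod_cast ((le_max_right _ _).trans (le_max_left _ _)).trans hn
    constructor
    · have h3 : 4 * C / δ0 ≤ n := hn1.trans h1
      rw [div_le_iff₀ hδ0] at h3
      have h4 : δ0 / 2 * n + 1 ≤ Real.exp (δ0 / 2 * n) := Real.add_one_le_exp _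
      have h5 : Real.exp (-(δ0 / 2) * n) = (Real.exp (δ0 / 2 * n))⁻¹ := by
        rw [← Real.exp_neg]
        congr 1
        ring
      rw [h5, ← div_eq_mul_inv, div_le_iff₀ (Real.exp_pos _)]
      linarith
    · have h3 : Real.log 4 / δ ≤ n := hn2.trans h2
      rw [div_le_iff₀ hδp] at h3
      linarith
  set K1 : ℝ := 3 * √6 / ε + 4 * C / δ0 with hK1
  set K2 : ℝ := Real.exp (δ * n0) * √n0 with hK2
  have hK1p : 0 < K1 := by positivity
  refine ⟨K1 + K2, δ, by positivity, hδp, ?_⟩
  intro n hn hodd B a a' haa hlow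
  obtain ⟨hM, hrest⟩ := hfew n hn hodd
  obtain ⟨hfl, hle⟩ := hF n B (ε * n) hn
  have hnR : (0 : ℝ) < n := by
    have : 0 < n := by omega
    exact_mod_cast this
  set M : ℝ := ((KP n).card : ℝ) with hMd
  have hMp : 0 < M := by
    rw [hMd]
    exact_mod_cast hM
  set u := NB n B a with hu
  set v := NB n B a' with hv
  have hup : 0 < u := (by positivity : (0 : ℝ) < Real.exp (-δ * n) * M).trans_le hlow
  have hNBle : ∀ b : ℤ, NB n B b ≤ M := by
    intro b
    show (((KP n).filter (fun w => dims w ∈ B ∧ (ar w : ℤ) = b)).card : ℝ) ≤ ((KP n).card : ℝ)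
    exact_mod_cast Finset.card_le_card (Finset.filter_subset _ _)
  have huM : u ≤ M := hNBle a
  have hvM : v ≤ M := hNBle a'
  have hv0 : 0 ≤ v := Nat.cast_nonneg _
  have hlog : 0 ≤ Real.log (M / u) := Real.log_nonneg (by rw [le_div_iff₀ hup]; linarith)
  set S : ℝ := √((1 + Real.log (M / u)) / n) with hS
  have hS0 : 0 ≤ S := Real.sqrt_nonneg _
  have hMu : M / u ≤ Real.exp (δ * n) := by
    rw [div_le_iff₀ hup]
    have h1 : Real.exp (δ * n) * (Real.exp (-δ * n) * M) = M := by
      rw [← mul_assoc, ← Real.exp_add]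
      have : δ * n + -δ * n = 0 := by ring
      rw [this, Real.exp_zero, one_mul]
    calc M = Real.exp (δ * n) * (Real.exp (-δ * n) * M) := h1.symm
      _ ≤ Real.exp (δ * n) * u := mul_le_mul_of_nonneg_left hlow (Real.exp_pos _).le
  rcases lt_or_ge n n0 with hsm | hlg
  · -- small n
    have hn0R : (n : ℝ) ≤ n0 := by exact_mod_cast hsm.le
    have h1 : |v / u - 1| ≤ Real.exp (δ * n0) := by
      have h2 : v / u ≤ Real.exp (δ * n0) := by
        calc v / u ≤ M / u := div_le_div_of_nonneg_right hvM hup.le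
          _ ≤ Real.exp (δ * n) := hMu
          _ ≤ Real.exp (δ * n0) := Real.exp_le_exp.2 (mul_le_mul_of_nonneg_left hn0R hδp.le)
      have h3 : 0 ≤ v / u := div_nonneg hv0 hup.le
      have h4 : 1 ≤ Real.exp (δ * n0) := Real.one_le_exp (by positivity)
      rw [abs_le]
      constructor <;> linarith
    have h5 : 1 ≤ √n0 * S := by
      rw [hS, ← Real.sqrt_mul (Nat.cast_nonneg _)]
      rw [Real.one_le_sqrt, ← mul_div_assoc, le_div_iff₀ hnR]
      nlinarith
    calc |v / u - 1| ≤ Real.exp (δ * n0) := h1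
      _ = Real.exp (δ * n0) * 1 := (mul_one _).symm
      _ ≤ Real.exp (δ * n0) * (√n0 * S) := mul_le_mul_of_nonneg_left h5 (Real.exp_pos _).le
      _ = K2 * S := by rw [hK2]; ring
      _ ≤ (K1 + K2) * S := mul_le_mul_of_nonneg_right (by linarith) hS0
  · -- large n
    obtain ⟨hb1, hb2⟩ := hn0 n hlg
    set X := XB n B (ε * n) with hX
    set x := NA X (fun w => (ar w : ℤ)) a with hx
    set y := NA X (fun w => (ar w : ℤ)) a' with hy
    set R : ℝ := C * Real.exp (-δ0 * n) * M with hRd
    have hR0 : 0 ≤ R := by positivity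
    -- comparison of N and N'
    have hcmp : ∀ b : ℤ, NA X (fun w => (ar w : ℤ)) b ≤ NB n B b ∧
        NB n B b ≤ NA X (fun w => (ar w : ℤ)) b + R := by
      intro b
      have h1 : (X.filter (fun w => (ar w : ℤ) = b)) ⊆
          (KP n).filter (fun w => dims w ∈ B ∧ (ar w : ℤ) = b) := by
        intro w hw
        simp only [hX, XB, Finset.mem_filter] at hw ⊢
        tauto
      have h2 : (KP n).filter (fun w => dims w ∈ B ∧ (ar w : ℤ) = b) ⊆
          (X.filter (fun w => (ar w : ℤ) = b)) ∪
            (KP n).filter (fun w => ((Fl w).card : ℝ) < ε * n) := by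
        intro w hw
        simp only [hX, XB, Finset.mem_filter, Finset.mem_union] at hw ⊢
        rcases lt_or_ge ((Fl w).card : ℝ) (ε * n) with h | h
        · right
          exact ⟨hw.1, h⟩
        · left
          exact ⟨⟨hw.1, hw.2.1, h⟩, hw.2.2⟩
      constructor
      · show (((X.filter (fun w => (ar w : ℤ) = b)).card : ℕ) : ℝ) ≤
          ((((KP n).filter (fun w => dims w ∈ B ∧ (ar w : ℤ) = b)).card : ℕ) : ℝ)
        exact_mod_cast Finset.card_le_card h1
      · show ((((KP n).filter (fun w => dims w ∈ B ∧ (ar w : ℤ) = b)).card : ℕ) : ℝ) ≤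
          (((X.filter (fun w => (ar w : ℤ) = b)).card : ℕ) : ℝ) + R
        have h3 := (Finset.card_le_card h2).trans (Finset.card_union_le _ _)
        have h4 : ((((KP n).filter (fun w => dims w ∈ B ∧ (ar w : ℤ) = b)).card : ℕ) : ℝ) ≤
            (((X.filter (fun w => (ar w : ℤ) = b)).card : ℕ) : ℝ) +
            ((((KP n).filter (fun w => ((Fl w).card : ℝ) < ε * n)).card : ℕ) : ℝ) := by
          exact_mod_cast h3
        linarith
    have hXM : ((X.card : ℕ) : ℝ) ≤ M := by
      rw [hMd]
      exact_mod_cast Finset.card_le_card (Finset.filter_subset _ _)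
    have hNA0 : ∀ b : ℤ, 0 ≤ NA X (fun w => (ar w : ℤ)) b := fun b => Nat.cast_nonneg _
    have hNAX : ∀ b : ℤ, NA X (fun w => (ar w : ℤ)) b ≤ X.card := by
      intro b
      show (((X.filter (fun w => (ar w : ℤ) = b)).card : ℕ) : ℝ) ≤ _
      exact_mod_cast Finset.card_le_card (Finset.filter_subset _ _)
    -- the error term
    have hRu : R ≤ C * Real.exp (-(δ0 / 2) * n) * u := by
      have h1 : Real.exp (-δ0 * n) ≤ Real.exp (-(δ0 / 2) * n) * Real.exp (-δ * n) := by
        rw [← Real.exp_add]
        apply Real.exp_le_exp.2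
        nlinarith
      calc R = C * (Real.exp (-δ0 * n) * M) := by rw [hRd]; ring
        _ ≤ C * (Real.exp (-(δ0 / 2) * n) * Real.exp (-δ * n) * M) :=
          mul_le_mul_of_nonneg_left (mul_le_mul_of_nonneg_right h1 hMp.le) hC0.le
        _ = C * Real.exp (-(δ0 / 2) * n) * (Real.exp (-δ * n) * M) := by ring
        _ ≤ C * Real.exp (-(δ0 / 2) * n) * u :=
          mul_le_mul_of_nonneg_left hlow (by positivity)
    have hx2 : u / 2 ≤ x := by
      have h1 := (hcmp a).2
      have h2 : R ≤ 1 / 2 * u := hRu.trans (mul_le_mul_of_nonneg_right hb1 hup.le)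
      linarith
    have hxp : 0 < x := by linarith
    have hxu : x ≤ u := (hcmp a).1
    have hyv : y ≤ v := (hcmp a').1
    have hyM : y ≤ M := hyv.trans hvM
    have hxM : x ≤ M := hxu.trans huM
    -- replace card X by M
    have hrep : ∀ b : ℤ, NA X (fun w => (ar w : ℤ)) b *
        √(2 * n * Real.log (2 * X.card / NA X (fun w => (ar w : ℤ)) b)) ≤
        NA X (fun w => (ar w : ℤ)) b *
        √(2 * n * Real.log (2 * M / NA X (fun w => (ar w : ℤ)) b)) := by
      intro b
      rcases (hNA0 b).eq_or_lt with h | h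
      · rw [← h, zero_mul, zero_mul]
      · apply mul_le_mul_of_nonneg_left _ h.le
        apply Real.sqrt_le_sqrt
        apply mul_le_mul_of_nonneg_left _ (by positivity)
        have hXp : (0 : ℝ) < X.card := h.trans_le (hNAX b)
        apply Real.log_le_log (by positivity)
        apply div_le_div_of_nonneg_right _ h.le
        linarith
    have hκ : 0 < ε * n := by positivity
    have hrti := hR _ X Fl sw (fun w k => ins' w (cl w k)) (fun w => (ar w : ℤ)) hfl n (ε * n) hκ
      (fun w hw => ⟨(Finset.mem_filter.1 hw).2.2, hle w hw⟩)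
    have hmain : |y - x| ≤ (x * √(2 * n * Real.log (2 * M / x)) +
        y * √(2 * n * Real.log (2 * M / y))) / (ε * n) := by
      rcases haa with haa | haa
      · have h1 := hrti a
        rw [← haa] at h1
        refine h1.trans ?_
        apply div_le_div_of_nonneg_right _ hκ.le
        exact add_le_add (hrep a) (hrep a')
      · have h1 := hrti a'
        have h2 : a' + 1 = a := by omega
        rw [h2] at h1
        rw [abs_sub_comm]
        refine h1.trans ?_
        apply div_le_div_of_nonneg_right _ hκ.le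
        rw [add_comm]
        exact add_le_add (hrep a) (hrep a')
    have hlogx : Real.log (2 * M / x) ≤ Real.log 4 + Real.log (M / u) := by
      rw [← Real.log_mul (by norm_num) (by positivity)]
      apply Real.log_le_log (by positivity)
      rw [div_le_iff₀ hxp]
      have : 4 * (M / u) * x = 4 * M * (x / u) := by field_simp
      rw [this]
      have h1 : 1 / 2 ≤ x / u := by
        rw [le_div_iff₀ hup]
        linarith
      nlinarith
    have hlogMu : Real.log (M / u) ≤ δ * n := by
      rw [Real.log_le_iff_le_exp (by positivity)]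
      exact hMu
    have hs : √(2 * n * Real.log (2 * M / x)) ≤ ε * n / 3 := by
      apply Real.sqrt_le_iff.2
      refine ⟨by positivity, ?_⟩
      have h1 : Real.log (2 * M / x) ≤ 2 * (δ * n) := by linarith
      have h2 : 2 * n * Real.log (2 * M / x) ≤ 2 * n * (2 * (δ * n)) :=
        mul_le_mul_of_nonneg_left h1 (by positivity)
      have h3 : δ * (n : ℝ) ^ 2 ≤ ε ^ 2 / 36 * (n : ℝ) ^ 2 :=
        mul_le_mul_of_nonneg_right hδ1 (sq_nonneg _)
      nlinarith
    have hc := core hnR hε hxp hxM (hNA0 a') hyM hmain hs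
    -- the final estimate
    have hlog4 : Real.log 4 ≤ 2 := by
      have h1 : Real.log 4 = 2 * Real.log 2 := by
        rw [show (4 : ℝ) = 2 ^ 2 by norm_num, Real.log_pow]
        norm_num
      rw [h1]
      have := Real.log_two_lt_d9
      linarith
    have h1 : √(2 * n * (1 + Real.log (2 * M / x))) ≤ √6 * (n * S) := by
      have e1 : √6 * (n * S) = √(6 * (n * (1 + Real.log (M / u)))) := by
        have e2 : n * S = √(n * (1 + Real.log (M / u))) := by
          rw [hS]
          have e3 : (n : ℝ) * (1 + Real.log (M / u)) = (n : ℝ) ^ 2 * ((1 + Real.log (M / u)) / n) := by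
            field_simp
          rw [e3, Real.sqrt_mul (sq_nonneg _), Real.sqrt_sq hnR.le]
        rw [e2, ← Real.sqrt_mul (by norm_num)]
      rw [e1]
      apply Real.sqrt_le_sqrt
      have e4 : 1 + Real.log (2 * M / x) ≤ 3 * (1 + Real.log (M / u)) := by linarith
      nlinarith
    have h2 : |y - x| ≤ 3 * √6 / ε * S * u := by
      refine hc.trans ?_
      rw [div_le_iff₀ hκ]
      calc 3 * x * √(2 * n * (1 + Real.log (2 * M / x)))
          ≤ 3 * u * (√6 * (n * S)) :=
            mul_le_mul (by linarith) h1 (Real.sqrt_nonneg _) (by positivity)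
        _ = 3 * √6 / ε * S * u * (ε * n) := by field_simp
    have h3 : R ≤ 2 * C / δ0 * S * u := by
      refine hRu.trans ?_
      apply mul_le_mul_of_nonneg_right _ hup.le
      have e1 : Real.exp (-(δ0 / 2) * n) ≤ 2 / (δ0 * n) := by
        have e2 : Real.exp (-(δ0 / 2) * n) = (Real.exp (δ0 / 2 * n))⁻¹ := by
          rw [← Real.exp_neg]
          congr 1
          ring
        rw [e2, inv_eq_one_div, div_le_div_iff₀ (Real.exp_pos _) (by positivity)]
        have e3 : δ0 / 2 * n + 1 ≤ Real.exp (δ0 / 2 * n) := Real.add_one_le_exp _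
        linarith
      have e4 : 1 / (n : ℝ) ≤ S := by
        rw [hS]
        apply Real.le_sqrt_of_sq_le
        rw [div_pow, one_pow, div_le_div_iff₀ (by positivity) hnR]
        have h1n : (1 : ℝ) ≤ n := by
          have : 1 ≤ n := by omega
          exact_mod_cast this
        nlinarith
      calc C * Real.exp (-(δ0 / 2) * n) ≤ C * (2 / (δ0 * n)) := mul_le_mul_of_nonneg_left e1 hC0.le
        _ = 2 * C / δ0 * (1 / n) := by field_simp
        _ ≤ 2 * C / δ0 * S := mul_le_mul_of_nonneg_left e4 (by positivity)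
    have h4 : |v - u| ≤ K1 * S * u := by
      have a1 := (hcmp a).1
      have a2 := (hcmp a).2
      have a3 := (hcmp a').1
      have a4 := (hcmp a').2
      have a5 : |v - u| ≤ |y - x| + 2 * R := by
        have b1 := abs_le.1 (le_refl |y - x|)
        rw [abs_le]
        constructor <;> linarith [b1.1, b1.2]
      have a6 : K1 * S * u = 3 * √6 / ε * S * u + 2 * (2 * C / δ0 * S * u) := by
        rw [hK1]
        ring
      rw [a6]
      linarith
    have h5 : |v / u - 1| = |v - u| / u := by
      have : v / u - 1 = (v - u) / u := by field_simp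
      rw [this, abs_div, abs_of_pos hup]
    rw [h5, div_le_iff₀ hup]
    refine h4.trans ?_
    apply mul_le_mul_of_nonneg_right _ hup.le
    apply mul_le_mul_of_nonneg_right _ hS0
    have : 0 ≤ K2 := by positivity
    linarith

end Pool.Agent.Q121.PT.RAT
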