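import Pool.Agent.Q91.PT.Stm

/-!
Project PT (helper91), job VER: crossing parities.
-/

set_option autoImplicit false

namespace Pool.Agent.Q121.PT.VER

open Finset Pool.Agent.H976R2 Pool.Agent.H976R2.Lip Pool.Agent.H739K Pool.Agent.H924P
open Pool.Agent.Q91.PT
open scoped Classical

/-- the edge between `P` and `Q` is edge number `k` -/
def Ed {m : ℕ} (f : ZMod m → ℤ × ℤ) (P Q : ℤ × ℤ) (k : ZMod m) : Prop :=
  (f k = P ∧ f (k + 1) = Q) ∨ (f k = Q ∧ f (k + 1) = P)

theorem uniq {m : ℕ} {f : ZMod m → ℤ × ℤ} (hm : 4 ≤ m) (hf : IsLoop m f) {P Q : ℤ × ℤ}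
    {k k' : ZMod m} (h : Ed f P Q k) (h' : Ed f P Q k') : k = k' := by
  have hinj := hf.2.1
  have h2 : ∀ j : ZMod m, j ≠ j + 1 + 1 := by
    intro j hj
    have h3 : (2 : ZMod m) = 0 := by
      have : j + 2 = j + 0 := by
        rw [add_zero]
        nth_rewrite 2 [hj]
        ring
      exact add_left_cancel this
    have h4 : ((2 : ℕ) : ZMod m) = 0 := by
      push_cast
      exact h3
    rw [ZMod.natCast_eq_zero_iff] at h4
    have := Nat.le_of_dvd (by norm_num) h4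
    omega
  rcases h with ⟨h1, h1'⟩ | ⟨h1, h1'⟩ <;> rcases h' with ⟨h3, h3'⟩ | ⟨h3, h3'⟩
  · exact hinj (h1.trans h3.symm)
  · have e1 : k + 1 = k' := hinj (h1'.trans h3.symm)
    have e2 : k' + 1 = k := hinj (h3'.trans h1.symm)
    rw [← e1] at e2
    exact absurd e2.symm (h2 k)
  · have e1 : k + 1 = k' := hinj (h1'.trans h3.symm)
    have e2 : k' + 1 = k := hinj (h3'.trans h1.symm)
    rw [← e1] at e2
    exact absurd e2.symm (h2 k)
  · exact hinj (h1.trans h3.symm)

theorem odd_ed {m : ℕ} {f : ZMod m → ℤ × ℤ} (hm : 4 ≤ m) (hf : IsLoop m f) (P Q : ℤ × ℤ) :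
    Odd (Nat.card {k : ZMod m // Ed f P Q k}) ↔ ∃ k, Ed f P Q k := by
  constructor
  · intro h
    by_contra hcon
    push Not at hcon
    have : IsEmpty {k : ZMod m // Ed f P Q k} := ⟨fun k => hcon k.1 k.2⟩
    rw [Nat.card_of_isEmpty] at h
    exact absurd h (by decide)
  · rintro ⟨k, hk⟩
    have : Subsingleton {k : ZMod m // Ed f P Q k} :=
      ⟨fun a b => Subtype.ext (uniq hm hf a.2 b.2)⟩
    have : Nonempty {k : ZMod m // Ed f P Q k} := ⟨⟨k, hk⟩⟩
    rw [Nat.card_of_subsingleton (⟨k, hk⟩ : {k : ZMod m // Ed f P Q k})]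
    decide

theorem card2 {m : ℕ} [NeZero m] (p : ZMod m → Prop) :
    ((Nat.card {k : ZMod m // p k} : ℕ) : ZMod 2) = ∑ k, if p k then (1 : ZMod 2) else 0 := by
  rw [Nat.card_eq_fintype_card, Fintype.card_subtype, Finset.card_filter, Nat.cast_sum]
  refine Finset.sum_congr rfl (fun k _ => ?_)
  split_ifs <;> simp

theorem par {m : ℕ} [NeZero m] (p1 p2 p3 : ZMod m → Prop) (φ : ZMod m → ZMod 2)
    (h : ∀ k, (if p1 k then (1 : ZMod 2) else 0) + (if p2 k then (1 : ZMod 2) else 0) +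
      (if p3 k then (1 : ZMod 2) else 0) = φ k + φ (k + 1)) :
    (¬ (Odd (Nat.card {k : ZMod m // p1 k}) ↔ Odd (Nat.card {k : ZMod m // p2 k}))) ↔
      Odd (Nat.card {k : ZMod m // p3 k}) := by
  have h1 : ((Nat.card {k : ZMod m // p1 k} + Nat.card {k : ZMod m // p2 k} +
      Nat.card {k : ZMod m // p3 k} : ℕ) : ZMod 2) = 0 := by
    rw [Nat.cast_add, Nat.cast_add, card2, card2, card2, ← Finset.sum_add_distrib,
      ← Finset.sum_add_distrib, Finset.sum_congr rfl (fun k _ => h k), Finset.sum_add_distrib]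
    have h2 : ∑ k, φ (k + 1) = ∑ k, φ k := Equiv.sum_comp (Equiv.addRight (1 : ZMod m)) φ
    rw [h2]
    exact CharTwo.add_self_eq_zero _
  rw [ZMod.natCast_eq_zero_iff_even] at h1
  rw [Nat.even_iff] at h1
  rw [Nat.odd_iff, Nat.odd_iff, Nat.odd_iff]
  omega

/-- the four possible steps -/
theorem steps {m : ℕ} {f : ZMod m → ℤ × ℤ} (hf : IsLoop m f) (k : ZMod m) :
    ((f (k + 1)).1 = (f k).1 + 1 ∧ (f (k + 1)).2 = (f k).2) ∨
    ((f (k + 1)).1 = (f k).1 - 1 ∧ (f (k + 1)).2 = (f k).2) ∨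
    ((f (k + 1)).1 = (f k).1 ∧ (f (k + 1)).2 = (f k).2 + 1) ∨
    ((f (k + 1)).1 = (f k).1 ∧ (f (k + 1)).2 = (f k).2 - 1) := by
  have h := hf.2.2 k
  rcases abs_cases ((f (k + 1)).1 - (f k).1) with ⟨h1, h2⟩ | ⟨h1, h2⟩ <;>
  rcases abs_cases ((f (k + 1)).2 - (f k).2) with ⟨h3, h4⟩ | ⟨h3, h4⟩ <;>
  omega

theorem t : S_ver := by
  intro m f hm hf
  have hne : NeZero m := ⟨by omega⟩
  constructor
  · intro a b
    have h1 := par (Above m f a b) (Above m f a (b - 1)) (Ed f (a, b) (a + 1, b)) (fun _ => 0) (by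
      intro k
      have hs := steps hf k
      unfold Above Ed
      simp only [Prod.ext_iff]
      generalize (f k).1 = x at *
      generalize (f k).2 = y at *
      generalize (f (k + 1)).1 = x' at *
      generalize (f (k + 1)).2 = y' at *
      rcases hs with ⟨rfl, rfl⟩ | ⟨rfl, rfl⟩ | ⟨rfl, rfl⟩ | ⟨rfl, rfl⟩ <;>
      split_ifs <;> first | decide | (exfalso; omega))
    have h2 := h1.trans (odd_ed hm hf (a, b) (a + 1, b))
    exact h2
  · intro a b
    have h1 := par (Above m f a b) (Above m f (a - 1) b) (Ed f (a, b) (a, b + 1))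
      (fun k => if (f k).1 = a ∧ b < (f k).2 then 1 else 0) (by
      intro k
      have hs := steps hf k
      unfold Above Ed
      simp only [Prod.ext_iff]
      generalize (f k).1 = x at *
      generalize (f k).2 = y at *
      generalize (f (k + 1)).1 = x' at *
      generalize (f (k + 1)).2 = y' at *
      rcases hs with ⟨rfl, rfl⟩ | ⟨rfl, rfl⟩ | ⟨rfl, rfl⟩ | ⟨rfl, rfl⟩ <;>
      split_ifs <;> first | decide | (exfalso; omega))
    have h2 := h1.trans (odd_ed hm hf (a, b) (a, b + 1))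
    exact h2

end Pool.Agent.Q121.PT.VER
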